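import Mathlib
import Pool.Agent.Lib.helper27.Shearer

set_option autoImplicit false

namespace Pool.Agent.Results.MP_cf191d_co.No

open Finset SimpleGraph Pool.Agent.Lib.helper27

theorem cnt {n r : ℕ} [NeZero r] (u v : Fin n) (h : u ≠ v) :
    r * ∑ p : Fin n → Fin r, (if p u = p v then 1 else 0 : ℝ) = r ^ n := by
  have k : ∀ c : Fin r, ∑ p : Fin n → Fin r, (if p u = p v then 1 else 0 : ℝ) =
      ∑ p : Fin n → Fin r, (if p u + c = p v then 1 else 0 : ℝ) := fun c => by
    rw [← Equiv.sum_comp (Equiv.addRight (Pi.single u c))]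
    simp [h.symm]
  calc _ = ∑ c : Fin r, ∑ p : Fin n → Fin r, (if p u + c = p v then 1 else 0 : ℝ) := by
        simp only [← k, sum_const, card_univ, Fintype.card_fin, nsmul_eq_mul]
    _ = _ := by
        rw [sum_comm]
        simp [← eq_neg_add_iff_add_eq]

theorem result {V : Type} [Fintype V] (H : SimpleGraph V) (h2 : 2 ≤ H.edgeSet.ncard) (k : ℕ)
    (hk : H.chromaticNumber = (k + 1 : ℕ)) (n : ℕ) (F : Finset (SimpleGraph (Fin n)))
    (hF : ∀ G₁ ∈ F, ∀ G₂ ∈ F, H ⊑ G₁ ⊓ G₂) : #F * 2 ^ k < 2 ^ n.choose 2 := by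
  classical
  let E := (⊤ : SimpleGraph (Fin n)).edgeFinset
  have cE : #E = n.choose 2 := by
    rw [card_edgeFinset_top_eq_card_choose_two, Fintype.card_fin]
  let J := F.image fun G => G.edgeSet.toFinset
  have cJ : #J = #F := card_image_of_injective _ fun G G' h =>
    edgeSet_injective (Set.toFinset_inj.1 h)
  have hJ : ∀ A ∈ J, A ⊆ E := fun A hA => by
    obtain ⟨G, -, rfl⟩ := mem_image.1 hA
    intro e he
    exact mem_edgeFinset.2 (edgeSet_mono le_top (Set.mem_toFinset.1 he))
  rw [← cE, ← cJ]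
  rcases le_or_gt k 1 with h1 | h1
  · refine lt_of_le_of_lt ?_ (half_lt E J hJ fun A hA B hB => h2.trans ?_)
    · rw [mul_comm]
      exact Nat.mul_le_mul_right _ (Nat.pow_le_pow_right two_pos h1)
    · obtain ⟨G, hG, rfl⟩ := mem_image.1 hA
      obtain ⟨G', hG', rfl⟩ := mem_image.1 hB
      obtain ⟨f⟩ := hF G hG G' hG'
      rw [← Set.toFinset_inter, ← Set.ncard_eq_toFinset_card', ← edgeSet_inf]
      exact Nat.card_le_card_of_injective _ f.mapEdgeSet.injective
  rcases J.eq_empty_or_nonempty with h0 | hne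
  · simp [h0]
  have : NeZero k := ⟨by omega⟩
  let S : (Fin n → Fin k) → Finset (Sym2 (Fin n)) := fun p => {e ∈ E | (e.map p).IsDiag}
  let w : ℝ := k / k ^ n
  have kp : (0 : ℝ) < k := by exact_mod_cast (by omega : 0 < k)
  have w0 : 0 < w := by positivity
  have hE : ∀ e ∈ E, ∑ p, (if e ∈ S p then w else 0) = 1 := by
    rintro ⟨u, v⟩ he
    have huv : u ≠ v := by simpa [E] using he
    have := cnt (r := k) u v huv
    rw [← div_eq_one_iff_eq (by positivity), ← div_mul_eq_mul_div, mul_sum] at this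
    rw [← this]
    exact sum_congr rfl fun p _ => by simp [S, he, w]
  have sh := shearer S w w0.le E hE J hJ
  set c := fun p => (#(J.image (· ∩ S p)) : ℝ)
  have c0 : ∀ p, 0 < c p := fun p => Nat.cast_pos.2 (card_pos.2 (hne.image _))
  have x0 : (0 : ℝ) < #J := Nat.cast_pos.2 (card_pos.2 hne)
  have l2 := Real.log_pos one_lt_two
  have hc : ∀ p, Real.log (c p) ≤ (#(S p) - 1) * Real.log 2 := fun p => by
    have := half_le (S p) (J.image (· ∩ S p)) (fun A hA => by
      obtain ⟨A, -, rfl⟩ := mem_image.1 hA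
      exact inter_subset_right) fun A hA B hB => by
      obtain ⟨A, hA', rfl⟩ := mem_image.1 hA
      obtain ⟨B, hB', rfl⟩ := mem_image.1 hB
      obtain ⟨G, hG, rfl⟩ := mem_image.1 hA'
      obtain ⟨G', hG', rfl⟩ := mem_image.1 hB'
      obtain ⟨f⟩ := hF G hG G' hG'
      by_contra q
      have col : (G ⊓ G').Colorable k := ⟨Coloring.mk p fun {u v} a e => q ⟨s(u, v), by
        simp [S, E, a.1, a.2, a.1.ne, e]⟩⟩
      have := (col.of_hom f.toHom).chromaticNumber_le
      rw [hk, Nat.cast_le] at this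
      omega
    have h : 2 * c p ≤ 2 ^ #(S p) := by
      simp only [c]
      exact_mod_cast this
    have := Real.log_le_log (by linarith [c0 p]) h
    rw [Real.log_mul two_ne_zero (c0 p).ne', Real.log_pow] at this
    linarith
  have sl := Real.log_le_log x0 sh
  rw [Real.log_prod fun p _ => (Real.rpow_pos_of_pos (c0 p) _).ne'] at sl
  simp only [Real.log_rpow (c0 _)] at sl
  have tot : ∑ p, w * ((#(S p) - 1) * Real.log 2) = (#E - k) * Real.log 2 := by
    have a : ∑ p, w * #(S p) = #E := by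
      rw [← mul_one (#E : ℝ), ← nsmul_eq_mul, ← sum_const, ← sum_congr rfl hE, sum_comm]
      refine sum_congr rfl fun p _ => ?_
      rw [sum_ite_mem, inter_eq_right.2 (filter_subset _ _), sum_const, nsmul_eq_mul, mul_comm]
    have b : ∑ _p : Fin n → Fin k, w = k := by
      simp [w]
      field_simp
    simp only [← mul_assoc, ← sum_mul, mul_sub, sum_sub_distrib, a, b, mul_one]
  have s1 := sl.trans ((sum_le_sum fun p _ => mul_le_mul_of_nonneg_left (hc p) w0.le).trans tot.le)
  have s2 := sl.trans_lt ((sum_lt_sum (fun p _ => mul_le_mul_of_nonneg_left (hc p) w0.le)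
    ⟨0, mem_univ _, mul_lt_mul_of_pos_left (by
      have a : S 0 = E := filter_true_of_mem (by rintro ⟨u, v⟩ -; simp)
      have b : c 0 ≤ #J := Nat.cast_le.2 card_image_le
      have d : (1 : ℝ) < k := by exact_mod_cast h1
      rw [a]
      nlinarith [Real.log_le_log (c0 0) b]) w0⟩).trans_eq tot)
  have : (#J * 2 ^ k : ℝ) < 2 ^ #E := by
    rw [← Real.log_lt_log_iff (by positivity) (by positivity), Real.log_mul x0.ne' (by positivity),
      Real.log_pow, Real.log_pow]
    linarith
  exact_mod_cast this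

end Pool.Agent.Results.MP_cf191d_co.No
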